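import Mathlib
import Pool.Agent.N46.FD.Asm
import Pool.Agent.N46.FD.AVO
import Pool.Agent.N46.FD.COV
import Pool.Agent.N46.FD.ConT
import Pool.Agent.N46.FD.DEC
import Pool.Agent.N46.FD.ENE
import Pool.Agent.N46.FD.HOE
import Pool.Agent.N46.FD.LIM
import Pool.Agent.N46.FD.MAS
import Pool.Agent.N46.FD.PAR
import Pool.Agent.N46.FD.REC
import Pool.Agent.N46.FD.SEL
import Pool.Agent.N46.FD.SUB
import Pool.Agent.N46.FD.TOP
import Pool.Agent.N46.FD.UH

/-!
# Fourier dimension of sets avoiding approximate arithmetic progressions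

For every `k ≥ 3` and every `ε ∈ (0, 1)` the supremum `d(k, ε)` of the Hausdorff dimensions of the
bounded sets of real numbers which `ε`-avoid the arithmetic progressions with `k` terms is also the
supremum of the Fourier dimensions of the Borel sets (and of the compact sets) which `ε`-avoid them:
the full positive answer to Q1 of MP_295b98_an.

Idea. Let `M(n)` be the maximal number of the cells `[c/n, (c+1)/n)`, `0 ≤ c < n`, which meet an
avoiding set. It is submultiplicative, and `d(k, ε) ≤ σ := inf log M(n) / log n`. At a scale `n` with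
`M(n)` about `n^σ` one takes an extremal set, removes its points close to the ends of its large gaps
(they are few, by submultiplicativity), so that all remaining points have some room, and thins it out
a little; the self-similar construction with this pattern and with arbitrary translations at all
intervals gives sets which avoid progressions, and for suitable (random) translations the natural
measure on such a set has the optimal decay of the Fourier transform.

Authors: helper46 (plan, statements, assembly), and helpers 572 (SUB), 565 (COV), 531 (SEL),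
654 (PAR), 169 (TOP), 897 (AVO), 170 (UH), 225 (HOE), 271 (CON), 391 (REC), 187 (LIM), 588 (DEC),
862 (ENE), 99 (MAS).
-/

set_option autoImplicit false

namespace Pool.Agent.Results.MP_295b98_an.FourierEqualsHausdorff

open MeasureTheory Set

/-- `E` `ε`-avoids `k`-APs: for every arithmetic progression `P = {a, a + l, …, a + (k - 1) l}` with
the gap length `l > 0`, the supremum over `p ∈ P` of the distances `inf_{x ∈ E} |x - p|` of `p` to `E`
is at least `ε l`. -/
def Avoids (k : ℕ) (ε : ℝ) (E : Set ℝ) : Prop :=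
  ∀ a l : ℝ, 0 < l →
    ENNReal.ofReal (ε * l) ≤ ⨆ i : Fin k, Metric.infEDist (a + ((i : ℕ) : ℝ) * l) E

/-- `d(k, ε)`: the supremum of the Hausdorff dimensions of the bounded sets which `ε`-avoid
`k`-APs. -/
noncomputable def d (k : ℕ) (ε : ℝ) : ENNReal :=
  ⨆ (E : Set ℝ) (_ : Bornology.IsBounded E ∧ Avoids k ε E), dimH E

/-- The Fourier transform of a measure, `∫ exp (-2 π i ξ x) dμ(x)`. -/
noncomputable def fourier (μ : Measure ℝ) (ξ : ℝ) : ℂ :=
  ∫ x : ℝ, Complex.exp (-2 * Real.pi * Complex.I * ξ * x) ∂μ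

/-- The Fourier dimension: the supremum of the `s ∈ [0, 1]` for which there are a Borel probability
measure `μ` with `μ(E) = 1` and a constant `C` with `|fourier μ ξ| ≤ C |ξ| ^ (-s / 2)`, `ξ ≠ 0`. -/
noncomputable def dimF (E : Set ℝ) : ENNReal :=
  ⨆ s ∈ {s : ℝ | s ∈ Icc (0 : ℝ) 1 ∧ ∃ μ : Measure ℝ, IsProbabilityMeasure μ ∧ μ E = 1 ∧
    ∃ C : ℝ, ∀ ξ : ℝ, ξ ≠ 0 → ‖fourier μ ξ‖ ≤ C * |ξ| ^ (-s / 2)}, ENNReal.ofReal s

theorem avoids_iff (k : ℕ) (hk : 1 ≤ k) (ε : ℝ) (E : Set ℝ) :
    Avoids k ε E ↔ Pool.Agent.N46.FD.Av k ε E := by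
  constructor
  · intro h a l hl
    have hne : Nonempty (Fin k) := ⟨⟨0, hk⟩⟩
    obtain ⟨i, hi⟩ := exists_eq_ciSup_of_finite
      (f := fun i : Fin k => Metric.infEDist (a + ((i : ℕ) : ℝ) * l) E)
    have h1 := h a l hl
    rw [← hi] at h1
    refine ⟨i, i.2, fun x hx => ?_⟩
    have h2 := h1.trans (Metric.infEDist_le_edist_of_mem hx)
    rw [edist_dist, ENNReal.ofReal_le_ofReal_iff dist_nonneg, Real.dist_eq, abs_sub_comm] at h2
    exact h2
  · intro h a l hl
    obtain ⟨i, hi, h1⟩ := h a l hl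
    refine le_iSup_of_le ⟨i, hi⟩ ?_
    refine Metric.le_infEDist.2 fun x hx => ?_
    rw [edist_dist, Real.dist_eq, abs_sub_comm]
    exact ENNReal.ofReal_le_ofReal (h1 x hx)

theorem fourier_eq (μ : Measure ℝ) (ξ : ℝ) : fourier μ ξ = Pool.Agent.N46.FD.ft μ ξ := by
  unfold fourier Pool.Agent.N46.FD.ft Pool.Agent.N46.FD.ee
  congr 1
  funext x
  congr 1
  push_cast
  ring

theorem dimF_eq (E : Set ℝ) : dimF E = Pool.Agent.N46.FD.dF E := by
  unfold dimF Pool.Agent.N46.FD.dF
  simp only [mem_ofPred_eq, mem_Icc, fourier_eq, and_assoc]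

/-- **The Fourier dimensions and the Hausdorff dimensions of the sets which `ε`-avoid `k`-APs have
the same supremum.** -/
theorem result (k : ℕ) (hk : 3 ≤ k) (ε : ℝ) (hε : ε ∈ Ioo (0 : ℝ) 1) :
    d k ε = (⨆ (E : Set ℝ) (_ : MeasurableSet E ∧ Avoids k ε E), dimF E) ∧
    d k ε = ⨆ (E : Set ℝ) (_ : IsCompact E ∧ Avoids k ε E), dimF E := by
  have h := Pool.Agent.N46.FD.Asm.main Pool.Agent.N46.FD.t_SUB Pool.Agent.N46.FD.t_COV
    Pool.Agent.N46.FD.t_SEL Pool.Agent.N46.FD.t_PAR Pool.Agent.N46.FD.t_AVO Pool.Agent.N46.FD.t_UH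
    Pool.Agent.N46.FD.t_TOP Pool.Agent.N46.FD.t_HOE Pool.Agent.N46.FD.t_CON
    (Pool.Agent.N46.FD.t_REC Pool.Agent.N46.FD.t_UH Pool.Agent.N46.FD.t_TOP)
    Pool.Agent.N46.FD.t_LIM Pool.Agent.N46.FD.t_DEC Pool.Agent.N46.FD.t_ENE
    Pool.Agent.N46.FD.t_MAS k ε hk hε.1 hε.2
  simp only [d, dimF_eq, avoids_iff k (by omega) ε]
  exact ⟨h.1, h.2.1⟩

end Pool.Agent.Results.MP_295b98_an.FourierEqualsHausdorff
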